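import Pool.Agent.H38.Ero.Main

open Pool.Agent.H38.Ero

theorem Pool.Agent.Results.MP_94d996_lc.Undec.result :
    ∃ (d k N : ℕ) (tr : (Fin N → Fin (k + 1)) → Fin (k + 1)),
      1 ≤ d ∧ 1 ≤ k ∧ Monotone tr ∧
        ¬ ComputablePred fun v : Fin N → Fin d → ℤ => Eroder v tr :=
  main
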